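import Pool.Agent.Q256.MP.Stm

/-!
# Forms with given values at several points
-/

set_option autoImplicit false

open MvPolynomial Pool.Agent.W276.GE Pool.Agent.Q256.MP

noncomputable section

namespace Pool.Agent.Q164.MPp

/-- the value of a homogeneous polynomial in terms of its coefficients -/
theorem eval_hom {n d : ℕ} {p : MvPolynomial (Fin n) ℂ} (hp : p.IsHomogeneous d) (x : Fin n → ℂ) :
    ∑ α : E n d, p.coeff (fs α) * ∏ j, x j ^ α.1 j = eval x p := by
  classical
  rw [eval_eq']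
  have h1 : p.support ⊆ (Finset.univ : Finset (E n d)).image fs := by
    intro m hm
    have hd : m.degree = d := by
      by_contra hne
      exact (mem_support_iff.1 hm) (hp.coeff_eq_zero hne)
    obtain ⟨α, hα⟩ := exists_fs hd
    exact Finset.mem_image.2 ⟨α, Finset.mem_univ _, hα⟩
  rw [Finset.sum_subset h1 (by
    intro m _ hm
    rw [notMem_support_iff.1 hm, zero_mul]), Finset.sum_image (fun a _ b _ h => fs_injective h)]
  rfl

/-- a linear form which separates two points which are not proportional -/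
theorem sep_form {n : ℕ} {z w : Fin n → ℂ} (hw : w ≠ 0) (h : ∀ c : ℂ, z ≠ c • w) :
    ∃ l : MvPolynomial (Fin n) ℂ, l.IsHomogeneous 1 ∧ eval w l = 0 ∧ eval z l ≠ 0 := by
  obtain ⟨b, hb⟩ := Function.ne_iff.1 hw
  have hb' : w b ≠ 0 := hb
  have h1 : ∃ a, z a * w b - z b * w a ≠ 0 := by
    by_contra hcon
    push Not at hcon
    apply h (z b / w b)
    funext a
    rw [Pi.smul_apply, smul_eq_mul, div_mul_eq_mul_div, eq_div_iff hb']
    exact sub_eq_zero.1 (hcon a)
  obtain ⟨a, ha⟩ := h1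
  refine ⟨C (w b) * X a - C (w a) * X b, ?_, ?_, ?_⟩
  · exact (isHomogeneous_C_mul_X _ _).sub (isHomogeneous_C_mul_X _ _)
  · simp only [map_sub, map_mul, eval_C, eval_X]
    ring
  · simp only [map_sub, map_mul, eval_C, eval_X]
    intro e
    apply ha
    rw [← e]
    ring

theorem intp : S_intp := by
  classical
  intro n d m hmd z hz i
  have hsep : ∀ k : Fin m, ∃ l : MvPolynomial (Fin n) ℂ, k ≠ i →
      (l.IsHomogeneous 1 ∧ eval (z k) l = 0 ∧ eval (z i) l ≠ 0) := by
    intro k
    by_cases hk : k = i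
    · exact ⟨0, fun h => absurd hk h⟩
    · obtain ⟨l, hl⟩ := sep_form (hz.1 k) (fun c => hz.2 i k (Ne.symm hk) c)
      exact ⟨l, fun _ => hl⟩
  choose l hl using hsep
  obtain ⟨e, he⟩ := Function.ne_iff.1 (hz.1 i)
  have he' : z i e ≠ 0 := he
  set q : MvPolynomial (Fin n) ℂ := (∏ k ∈ Finset.univ.erase i, l k) * X e ^ (d - (m - 1)) with hq
  have hm1 : (Finset.univ.erase i : Finset (Fin m)).card = m - 1 := by
    rw [Finset.card_erase_of_mem (Finset.mem_univ i), Finset.card_univ, Fintype.card_fin]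
  have hqh : q.IsHomogeneous d := by
    have h1 : (∏ k ∈ Finset.univ.erase i, l k).IsHomogeneous (∑ _k ∈ Finset.univ.erase i, 1) :=
      IsHomogeneous.prod _ _ _ (fun k hk => (hl k (Finset.mem_erase.1 hk).1).1)
    rw [Finset.sum_const, hm1, smul_eq_mul, mul_one] at h1
    have h2 := h1.mul ((isHomogeneous_X ℂ e).pow (d - (m - 1)))
    have h3 : m - 1 + 1 * (d - (m - 1)) = d := by omega
    rw [h3] at h2
    exact h2
  have hqi : eval (z i) q ≠ 0 := by
    rw [hq, map_mul, map_prod, map_pow, eval_X]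
    refine mul_ne_zero ?_ (pow_ne_zero _ he')
    rw [Finset.prod_ne_zero_iff]
    intro k hk
    exact (hl k (Finset.mem_erase.1 hk).1).2.2
  have hqk : ∀ k, k ≠ i → eval (z k) q = 0 := by
    intro k hk
    rw [hq, map_mul, map_prod, Finset.prod_eq_zero (Finset.mem_erase.2 ⟨hk, Finset.mem_univ k⟩)
      ((hl k hk).2.1), zero_mul]
  refine ⟨fun α => (eval (z i) q)⁻¹ * q.coeff (fs α), fun k => ?_⟩
  have h1 : ∑ α : E n d, (eval (z i) q)⁻¹ * q.coeff (fs α) * ∏ j, z k j ^ α.1 j =
      (eval (z i) q)⁻¹ * eval (z k) q := by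
    rw [← eval_hom hqh (z k), Finset.mul_sum]
    apply Finset.sum_congr rfl
    intro α _
    ring
  rw [h1]
  by_cases hk : k = i
  · rw [if_pos hk, hk, inv_mul_cancel₀ hqi]
  · rw [if_neg hk, hqk k hk, mul_zero]

end Pool.Agent.Q164.MPp
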