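import Pool.Agent.Q256.MP.Stm2
import Pool.Agent.Q176.MP.Smc

set_option autoImplicit false

/-!
# Project MP of helper256, job ZLIM
-/

namespace Pool.Agent.Q164.MPp

open Filter Topology
open Pool.Agent.W276.GE Pool.Agent.Q256.MP

theorem box_fin {ι : Type} [Fintype ι] (H : ℤ) : {g : ι → ℤ | ∀ i, |g i| ≤ H}.Finite := by
  classical
  apply Set.Finite.subset (Fintype.piFinset fun _ : ι => Finset.Icc (-H) H).finite_toSet
  intro g hg
  rw [Finset.mem_coe, Fintype.mem_piFinset]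
  intro i
  rw [Finset.mem_Icc]
  exact abs_le.1 (hg i)

/-- the rank is at most the exponent -/
theorem rank_le {ι : Type} [Fintype ι] (L : Submodule ℤ (ι → ℤ)) (r : ℕ) (C : ℝ)
    (h : ∀ H : ℕ, 1 ≤ H → ({g : ι → ℤ | (∀ i, |g i| ≤ (H : ℤ)) ∧ g ∈ L}.ncard : ℝ) ≤ C * (H : ℝ) ^ r) :
    Module.finrank ℤ L ≤ r := by
  classical
  by_contra hcon
  rw [not_le] at hcon
  obtain ⟨s, hs⟩ : ∃ s, s = Module.finrank ℤ L := ⟨_, rfl⟩
  rw [← hs] at hcon
  let b : Module.Basis (Fin s) ℤ L := Module.finBasisOfFinrankEq ℤ L hs.symm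
  obtain ⟨B, hB⟩ : ∃ B : ℕ, ∀ k i, |((b k : L) : ι → ℤ) i| ≤ (B : ℤ) := by
    refine ⟨∑ k, ∑ i, (((b k : L) : ι → ℤ) i).natAbs, fun k i => ?_⟩
    rw [Int.abs_eq_natAbs]
    norm_cast
    exact (Finset.single_le_sum (f := fun i => (((b k : L) : ι → ℤ) i).natAbs) (fun _ _ => Nat.zero_le _)
      (Finset.mem_univ i)).trans (Finset.single_le_sum
      (f := fun k => ∑ i, (((b k : L) : ι → ℤ) i).natAbs) (fun _ _ => Nat.zero_le _) (Finset.mem_univ k))
  obtain ⟨c, hc⟩ : ∃ c : ℕ, c = s * B + 1 := ⟨_, rfl⟩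
  have key : ∀ K : ℕ, 1 ≤ K → ((K : ℝ)) ^ s ≤ C * ((K * c : ℕ) : ℝ) ^ r := by
    intro K hK
    have hKc : 1 ≤ K * c := Nat.mul_pos hK (by omega)
    refine le_trans ?_ (h (K * c) hKc)
    let f : (Fin s → Fin K) → (ι → ℤ) := fun a => ((∑ k, ((a k : ℕ) : ℤ) • b k : L) : ι → ℤ)
    have hf : Function.Injective f := by
      intro a a' haa
      have h1 : (∑ k, ((a k : ℕ) : ℤ) • b k : L) = ∑ k, ((a' k : ℕ) : ℤ) • b k := Subtype.ext haa
      have h2 : ∀ a : Fin s → Fin K, ∀ k, b.repr (∑ k, ((a k : ℕ) : ℤ) • b k) k = ((a k : ℕ) : ℤ) := by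
        intro a k
        exact b.repr_sum_self (fun k => ((a k : ℕ) : ℤ)) ▸ rfl
      funext k
      have h3 := h2 a k
      rw [h1, h2 a' k] at h3
      exact Fin.ext (by exact_mod_cast h3.symm)
    have hcard : ((Finset.univ : Finset (Fin s → Fin K)).image f).card = K ^ s := by
      rw [Finset.card_image_of_injective _ hf, Finset.card_univ, Fintype.card_fun, Fintype.card_fin, Fintype.card_fin]
    have hsub : (((Finset.univ : Finset (Fin s → Fin K)).image f : Finset (ι → ℤ)) : Set (ι → ℤ)) ⊆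
        {g : ι → ℤ | (∀ i, |g i| ≤ ((K * c : ℕ) : ℤ)) ∧ g ∈ L} := by
      intro g hg
      rw [Finset.mem_coe, Finset.mem_image] at hg
      obtain ⟨a, -, rfl⟩ := hg
      refine ⟨fun i => ?_, Subtype.coe_prop _⟩
      have e : f a i = ∑ k, ((a k : ℕ) : ℤ) * ((b k : L) : ι → ℤ) i := by
        show ((∑ k, ((a k : ℕ) : ℤ) • b k : L) : ι → ℤ) i = _
        rw [Submodule.coe_sum, Finset.sum_apply]
        rfl
      rw [e]
      refine (Finset.abs_sum_le_sum_abs _ _).trans ?_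
      have h3 : ∀ k ∈ (Finset.univ : Finset (Fin s)), |((a k : ℕ) : ℤ) * ((b k : L) : ι → ℤ) i| ≤ (K : ℤ) * B := by
        intro k _
        rw [abs_mul]
        refine mul_le_mul ?_ (hB k i) (abs_nonneg _) (by positivity)
        rw [abs_of_nonneg (by positivity)]
        exact_mod_cast (a k).2.le
      refine (Finset.sum_le_sum h3).trans ?_
      rw [Finset.sum_const, Finset.card_univ, Fintype.card_fin, nsmul_eq_mul, hc]
      push_cast
      nlinarith [Int.natCast_nonneg K, Int.natCast_nonneg B]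
    have h4 := Set.ncard_le_ncard hsub ((box_fin _).subset fun g hg => hg.1)
    rw [Set.ncard_coe_finset, hcard] at h4
    exact_mod_cast h4
  obtain ⟨K, hK⟩ : ∃ K : ℕ, K = ⌊|C| * (c : ℝ) ^ r⌋₊ + 1 := ⟨_, rfl⟩
  have hK1 : |C| * (c : ℝ) ^ r < K := by
    rw [hK]
    push_cast
    exact Nat.lt_floor_add_one _
  have hK2 : 1 ≤ K := by omega
  have hKr : (1 : ℝ) ≤ K := by exact_mod_cast hK2
  have h5 := key K hK2
  have h6 : (K : ℝ) ^ (r + 1) ≤ (K : ℝ) ^ s := pow_le_pow_right₀ hKr hcon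
  have h7 : C * ((K * c : ℕ) : ℝ) ^ r ≤ |C| * (c : ℝ) ^ r * (K : ℝ) ^ r := by
    push_cast
    rw [mul_pow]
    have h8 : 0 ≤ (K : ℝ) ^ r * (c : ℝ) ^ r := by positivity
    nlinarith [le_abs_self C]
  have h9 : 0 < (K : ℝ) ^ r := by positivity
  rw [pow_succ] at h6
  nlinarith

/-- the systems with `Cf z w` as functions -/
def LL {m N d : ℕ} (z w : Fin m → Fin (N + 1) → ℂ) : Submodule ℤ (Fin (N + 1) × E (N + 1) d → ℤ) where
  carrier := {g | Cf z w (fun j α => g (j, α) : Sy N d)}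
  zero_mem' := by
    intro i
    refine ⟨0, fun j => ?_⟩
    rw [zero_mul]
    show ∑ α : E (N + 1) d, ((0 : ℤ) : ℂ) * _ = 0
    simp
  add_mem' := by
    intro g g' hg hg' i
    obtain ⟨c, hc⟩ := hg i
    obtain ⟨c', hc'⟩ := hg' i
    refine ⟨c + c', fun j => ?_⟩
    rw [add_mul, ← hc j, ← hc' j]
    show ∑ α : E (N + 1) d, ((g (j, α) + g' (j, α) : ℤ) : ℂ) * _ = (∑ α : E (N + 1) d, ((g (j, α) : ℤ) : ℂ) * _) +
      ∑ α : E (N + 1) d, ((g' (j, α) : ℤ) : ℂ) * _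
    rw [← Finset.sum_add_distrib]
    refine Finset.sum_congr rfl fun α _ => ?_
    push_cast
    ring
  smul_mem' := by
    intro a g hg i
    obtain ⟨c, hc⟩ := hg i
    refine ⟨a * c, fun j => ?_⟩
    rw [mul_assoc, ← hc j]
    show ∑ α : E (N + 1) d, ((a * g (j, α) : ℤ) : ℂ) * _ = (a : ℂ) * ∑ α : E (N + 1) d, ((g (j, α) : ℤ) : ℂ) * _
    rw [Finset.mul_sum]
    refine Finset.sum_congr rfl fun α _ => ?_
    push_cast
    ring

theorem mem_LL {m N d : ℕ} {z w : Fin m → Fin (N + 1) → ℂ} (F : Sy N d) :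
    (fun x : Fin (N + 1) × E (N + 1) d => F x.1 x.2) ∈ LL z w ↔ Cf z w F := Iff.rfl

/-- transport of the counting -/
theorem count_eq {N d : ℕ} (H : ℕ) (P : Sy N d → Prop) :
    {F : Sy N d | F ∈ Fb (N + 1) d H ∧ P F}.ncard =
      {g : Fin (N + 1) × E (N + 1) d → ℤ | (∀ i, |g i| ≤ (H : ℤ)) ∧ P (fun j α => g (j, α))}.ncard := by
  let e : Sy N d → (Fin (N + 1) × E (N + 1) d → ℤ) := fun F x => F x.1 x.2
  have he : Function.Injective e := by
    intro F F' h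
    funext j α
    exact congrFun h (j, α)
  rw [← Set.ncard_image_of_injective _ he]
  congr 1
  ext g
  constructor
  · rintro ⟨F, ⟨hF, hP⟩, rfl⟩
    refine ⟨fun i => ?_, hP⟩
    have h1 := Fintype.mem_piFinset.1 hF i.1
    have h2 := Fintype.mem_piFinset.1 h1 i.2
    rw [Finset.mem_Icc] at h2
    exact abs_le.2 h2
  · rintro ⟨h1, h2⟩
    refine ⟨fun j α => g (j, α), ⟨?_, h2⟩, rfl⟩
    refine Fintype.mem_piFinset.2 fun j => Fintype.mem_piFinset.2 fun α => ?_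
    rw [Finset.mem_Icc]
    exact abs_le.1 (h1 (j, α))

theorem zlim (h1 : S_lat) (h2 : S_sz) (h3 : S_nzp) (h4 : S_vdim) (h5 : S_fib) : S_zlim := by
  intro N d m hN hd hm hmd z w hz hw
  obtain ⟨M, hM⟩ : ∃ M, M = Fintype.card (E (N + 1) d) := ⟨_, rfl⟩
  have hmM : m ≤ M := by
    rw [hM]
    exact Pool.Agent.Q176.MP.m_le hN hmd
  obtain ⟨r, hr⟩ : ∃ r, r = QQ N d - m * N := ⟨_, rfl⟩
  have hr2 : r = M + (M - m) * N := by
    have e : QQ N d = (N + 1) * M := by rw [hM]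
    rw [hr, e]
    obtain ⟨k, hk⟩ := Nat.exists_eq_add_of_le hmM
    rw [hk, Nat.add_sub_cancel_left]
    apply Nat.sub_eq_of_eq_add
    ring
  have hr1 : 1 ≤ r := by omega
  rw [← hr]
  -- the bound for the number
  obtain ⟨C, hC, hfib⟩ := h5 N d m hm
  have hub : ∀ H : ℕ, 1 ≤ H →
      ({g : Fin (N + 1) × E (N + 1) d → ℤ | (∀ i, |g i| ≤ (H : ℤ)) ∧ g ∈ LL (d := d) z w}.ncard : ℝ) ≤
        (C * (5 ^ (M - m)) ^ N) * (H : ℝ) ^ r := by
    intro H hH
    have e1 := count_eq (N := N) (d := d) H (Cf z w)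
    have e2 := hfib H hH z w hw
    rw [e1] at e2
    have e3 := h4 (N + 1) d m (2 * H) hmd z hz
    have hHr : (1 : ℝ) ≤ H := by exact_mod_cast hH
    have e4 : (nzj z d (2 * H) : ℝ) ≤ (5 * (H : ℝ)) ^ (M - m) := by
      have e5 : (nzj z d (2 * H) : ℝ) ≤ ((2 * (2 * H) + 1 : ℕ) : ℝ) ^ (M - m) := by
        rw [hM]
        exact_mod_cast e3
      refine e5.trans (pow_le_pow_left₀ (by positivity) ?_ _)
      push_cast
      linarith
    refine e2.trans ?_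
    calc C * (H : ℝ) ^ (MM N d) * (nzj z d (2 * H) : ℝ) ^ N ≤
        C * (H : ℝ) ^ (MM N d) * ((5 * (H : ℝ)) ^ (M - m)) ^ N := by gcongr
      _ = (C * (5 ^ (M - m)) ^ N) * (H : ℝ) ^ r := by
          have e6 : MM N d = M := by rw [hM]
          rw [e6, hr2, pow_add, mul_pow, mul_pow, ← pow_mul (H : ℝ)]
          ring
  have hrank := rank_le (LL (d := d) z w) r _ hub
  obtain ⟨c, hc⟩ := h1 _ (LL (d := d) z w) r hrank
  have hcnt : ∀ H : ℕ, cnt N d H (Cf z w) = ({g : Fin (N + 1) × E (N + 1) d → ℤ | (∀ i, |g i| ≤ (H : ℤ)) ∧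
      (NoZero (fun j α => g (j, α) : Sy N d) ∧ g ∈ LL (d := d) z w)}.ncard : ℝ) := by
    intro H
    have e1 := count_eq (N := N) (d := d) H (fun F => NoZero F ∧ Cf z w F)
    show ({F : Sy N d | F ∈ Fb (N + 1) d H ∧ NoZero F ∧ Cf z w F}.ncard : ℝ) = _
    rw [e1]
    rfl
  by_cases hex : ∃ F₀ : Sy N d, NoZero F₀ ∧ Cf z w F₀
  · obtain ⟨F₀, hF₀, hF₁⟩ := hex
    obtain ⟨p, hp, hp2⟩ := h3 N d F₀ hd hF₀
    obtain ⟨C', hC'⟩ := h2 _ (LL (d := d) z w) r hrank p ⟨_, (mem_LL F₀).2 hF₁, hp⟩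
    refine ⟨c, ?_⟩
    have hlow : ∀ H : ℕ, 1 ≤ H →
        ({g : Fin (N + 1) × E (N + 1) d → ℤ | (∀ i, |g i| ≤ (H : ℤ)) ∧ g ∈ LL (d := d) z w}.ncard : ℝ) -
          C' * (H : ℝ) ^ (r - 1) ≤ cnt N d H (Cf z w) := by
      intro H hH
      rw [hcnt H]
      have e1 := hC' H hH
      have e2 : {g : Fin (N + 1) × E (N + 1) d → ℤ | (∀ i, |g i| ≤ (H : ℤ)) ∧ g ∈ LL (d := d) z w} ⊆
          {g : Fin (N + 1) × E (N + 1) d → ℤ | (∀ i, |g i| ≤ (H : ℤ)) ∧
            (NoZero (fun j α => g (j, α) : Sy N d) ∧ g ∈ LL (d := d) z w)} ∪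
          {g : Fin (N + 1) × E (N + 1) d → ℤ | (∀ i, |g i| ≤ (H : ℤ)) ∧ g ∈ LL (d := d) z w ∧
            MvPolynomial.eval g p = 0} := by
        rintro g ⟨hg1, hg2⟩
        by_cases h : MvPolynomial.eval g p = 0
        · exact Or.inr ⟨hg1, hg2, h⟩
        · exact Or.inl ⟨hg1, hp2 (fun j α => g (j, α)) h, hg2⟩
      have e3 := (Set.ncard_le_ncard e2 (((box_fin _).subset fun g hg => hg.1).union
        ((box_fin _).subset fun g hg => hg.1))).trans (Set.ncard_union_le _ _)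
      have e4 : ({g : Fin (N + 1) × E (N + 1) d → ℤ | (∀ i, |g i| ≤ (H : ℤ)) ∧ g ∈ LL (d := d) z w}.ncard : ℝ) ≤
          ({g : Fin (N + 1) × E (N + 1) d → ℤ | (∀ i, |g i| ≤ (H : ℤ)) ∧
            (NoZero (fun j α => g (j, α) : Sy N d) ∧ g ∈ LL (d := d) z w)}.ncard : ℝ) +
          ({g : Fin (N + 1) × E (N + 1) d → ℤ | (∀ i, |g i| ≤ (H : ℤ)) ∧ g ∈ LL (d := d) z w ∧
            MvPolynomial.eval g p = 0}.ncard : ℝ) := by
        exact_mod_cast e3
      linarith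
    have hup : ∀ H : ℕ, cnt N d H (Cf z w) ≤
        ({g : Fin (N + 1) × E (N + 1) d → ℤ | (∀ i, |g i| ≤ (H : ℤ)) ∧ g ∈ LL (d := d) z w}.ncard : ℝ) := by
      intro H
      rw [hcnt H]
      have e2 : {g : Fin (N + 1) × E (N + 1) d → ℤ | (∀ i, |g i| ≤ (H : ℤ)) ∧
          (NoZero (fun j α => g (j, α) : Sy N d) ∧ g ∈ LL (d := d) z w)} ⊆
          {g : Fin (N + 1) × E (N + 1) d → ℤ | (∀ i, |g i| ≤ (H : ℤ)) ∧ g ∈ LL (d := d) z w} :=
        fun g hg => ⟨hg.1, hg.2.2⟩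
      have e3 := Set.ncard_le_ncard e2 ((box_fin _).subset fun g hg => hg.1)
      exact_mod_cast e3
    have hlim : Tendsto (fun H : ℕ =>
        ({g : Fin (N + 1) × E (N + 1) d → ℤ | (∀ i, |g i| ≤ (H : ℤ)) ∧ g ∈ LL (d := d) z w}.ncard : ℝ) /
          (H : ℝ) ^ r - C' / (H : ℝ)) atTop (𝓝 c) := by
      have := hc.sub (tendsto_const_div_atTop_nhds_zero_nat C')
      rwa [sub_zero] at this
    refine tendsto_of_tendsto_of_tendsto_of_le_of_le' hlim hc ?_ ?_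
    · filter_upwards [eventually_ge_atTop 1] with H hH
      have hHr : (0 : ℝ) < H := by exact_mod_cast hH
      have e1 := hlow H hH
      have e2 : C' / (H : ℝ) = C' * (H : ℝ) ^ (r - 1) / (H : ℝ) ^ r := by
        obtain ⟨k, rfl⟩ : ∃ k, r = k + 1 := ⟨r - 1, by omega⟩
        rw [Nat.add_sub_cancel, pow_succ]
        field_simp
      rw [e2, ← sub_div]
      exact div_le_div_of_nonneg_right e1 (by positivity)
    · filter_upwards with H
      exact div_le_div_of_nonneg_right (hup H) (by positivity)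
  · refine ⟨0, ?_⟩
    have e : (fun H : ℕ => cnt N d H (Cf z w) / (H : ℝ) ^ r) = fun _ => 0 := by
      funext H
      have e1 : {F : Sy N d | F ∈ Fb (N + 1) d H ∧ NoZero F ∧ Cf z w F} = ∅ := by
        rw [Set.eq_empty_iff_forall_notMem]
        rintro F ⟨-, hF, hF2⟩
        exact hex ⟨F, hF, hF2⟩
      show ({F : Sy N d | F ∈ Fb (N + 1) d H ∧ NoZero F ∧ Cf z w F}.ncard : ℝ) / _ = 0
      rw [e1, Set.ncard_empty, Nat.cast_zero, zero_div]
    rw [e]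
    exact tendsto_const_nhds

end Pool.Agent.Q164.MPp
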